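import Pool.Agent.Lib.helper9.PSAut
import Pool.Agent.Lib.helper9.PSMore

namespace Pool.Agent.Results.MP_5adc07_lc.PSPACE

open Pool.Agent.Cx Polynomial

/-- the output word from state `q` -/
def out (δ l : List (List ℕ)) : ℕ → List ℕ → List ℕ
  | _, [] => []
  | q, a :: u => (l.getD q []).getD a 0 :: out δ l ((δ.getD q []).getD a 0) u

/-- `u` is a synchronizing word over the letters below `m` -/
def Syn (m : ℕ) (δ : List (List ℕ)) (u : List ℕ) : Prop :=
  (∀ x ∈ u, x < m) ∧ ((Finset.range δ.length).image fun q => run δ q u).card = 1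

/-- `(m, δ, l)` is a reset Mealy automaton with transition table `δ` and output table `l` -/
def Reset (I : ℕ × List (List ℕ) × List (List ℕ)) : Prop :=
  I.2.1 ≠ [] ∧ IsTab I.1 I.2.1 ∧ I.2.2.length = I.2.1.length ∧
    (∀ r ∈ I.2.2, r.length = I.1 ∧ ∀ e ∈ r, e < I.1) ∧ (∃ u, Syn I.1 I.2.1 u) ∧
    ∀ q < I.2.1.length, ∀ u, Syn I.1 I.2.1 u → Syn I.1 I.2.1 (out I.2.1 I.2.2 q u)

lemma syn_iff {m δ u} (h : δ ≠ []) : Syn m δ u ↔ (∀ x ∈ u, x < m) ∧
    ∀ p < δ.length, ∀ q < δ.length, run δ p u = run δ q u := by
  have : ((Finset.range δ.length).image fun q => run δ q u).card ≠ 0 := by simpa using h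
  refine and_congr_right fun _ => (⟨fun e => e.le, fun e => by omega⟩ : _ = 1 ↔ _ ≤ 1).trans ?_
  simp [Finset.card_le_one]

lemma out_snoc (δ l : List (List ℕ)) (x : ℕ) : ∀ (u : List ℕ) (q : ℕ),
    out δ l q (u ++ [x]) = out δ l q u ++ [(l.getD (run δ q u) []).getD x 0]
  | [], _ => rfl
  | a :: u, q => by simp [out, out_snoc δ l x u, run]

def st (δ l : List (List ℕ)) (u : List ℕ) : List (ℕ × List ℕ) :=
  (List.range δ.length).map fun q => (run δ q u, im δ (out δ l q u))

def stp (δ l : List (List ℕ)) (s : List (ℕ × List ℕ)) (x : ℕ) : List (ℕ × List ℕ) :=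
  s.map fun z => ((δ.getD z.1 []).getD x 0, img δ z.2 ((l.getD z.1 []).getD x 0))

def one (s : List ℕ) : Bool := s.all fun p => s.all fun q => p == q

lemma ps : PS Reset := by
  let R : ℕ × List (List ℕ) × List (List ℕ) → List (ℕ × List ℕ) → List (ℕ × List ℕ) → Bool :=
    fun a u v => (List.range a.1).any fun x => v == stp a.2.1 a.2.2 u x
  have key : ∀ T : List (ℕ × List ℕ) → Bool, PT T → PS (fun a : ℕ × List (List ℕ) × List (List ℕ) =>
      ∃ v, Relation.ReflTransGen (fun u v => R a u v = true)
        ((List.range a.2.1.length).map fun q => (q, List.range a.2.1.length)) v ∧ T v = true) := by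
    intro T hT
    refine PS.reachF (T := fun _ v => T v) (by fun_prop) (by simp only [R, stp, img]; fun_prop)
      (by fun_prop) (X * (X * (C 2 * X + C 4) + C 4) + 1)
      (fun a s => s.length ≤ size a ∧ ∀ z ∈ s, z.1 ≤ size a ∧ z.2.Sublist (List.range a.2.1.length))
      ?_ ?_ ?_
    · rintro ⟨m, δ, l⟩
      have := length_lt_size δ
      simp only [List.length_map, List.length_range, size_pair, List.mem_map, List.mem_range]
      refine ⟨by omega, ?_⟩
      rintro _ ⟨q, hq, rfl⟩
      exact ⟨by dsimp only; omega, .refl _⟩
    · rintro ⟨m, δ, l⟩ u v h h'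
      simp only [R, List.any_eq_true, beq_iff_eq] at h'
      obtain ⟨x, -, rfl⟩ := h'
      refine ⟨by simpa [stp] using h.1, fun z hz => ?_⟩
      obtain ⟨y, -, rfl⟩ := List.mem_map.1 hz
      refine ⟨?_, List.filter_sublist⟩
      simp only [List.getD_eq_getElem?_getD, size_pair]
      cases e : δ[y.1]? with
      | none => simp
      | some r =>
        have := size_lt_of_mem (List.mem_of_getElem? e)
        cases e' : r[x]? with
        | none => simp [e']
        | some c =>
          have := size_lt_of_mem (List.mem_of_getElem? e')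
          simp only [Option.getD_some, e', size_nat] at *
          omega
    · rintro ⟨m, δ, l⟩ s ⟨h1, h2⟩
      have a := size_range δ.length
      have := length_lt_size δ
      have b : δ.length ≤ size (m, δ, l) := by simp only [size_pair]; omega
      generalize size (m, δ, l) = n at *
      have c : δ.length * (2 * δ.length + 2) ≤ n * (2 * n + 2) := by gcongr
      have := size_list_le s (n * (2 * n + 4) + 3) fun ⟨z1, z2⟩ hz => by
        have := size_le_of_sublist (h2 _ hz).2
        have := (h2 _ hz).1
        simp only [size_pair, size_nat] at *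
        nlinarith
      simp only [eval_add, eval_mul, eval_X, eval_C, eval_one]
      refine this.trans ?_
      gcongr
  have h := ((key (fun v => one (v.map Prod.fst)) (by unfold one; fun_prop)).and2
    (key (fun v => one (v.map Prod.fst) && v.any fun z => !one z.2)
      (by unfold one; fun_prop)).not).and (f := fun a => !a.2.1.isEmpty &&
      (a.2.1.all fun r => r.length == a.1 && r.all fun e => decide (e < a.2.1.length)) &&
      a.2.2.length == a.2.1.length &&
      a.2.2.all fun r => r.length == a.1 && r.all fun e => decide (e < a.1)) (by fun_prop)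
  refine h.red PT.id fun ⟨m, δ, l⟩ => ?_
  simp only [Reset, Bool.and_eq_true, List.all_eq_true, beq_iff_eq, decide_eq_true_eq, R,
    List.any_eq_true, List.mem_range, Bool.not_eq_true', List.isEmpty_eq_false_iff, and_assoc]
  refine and_congr_right fun h0 => and_congr_right fun h1 => and_congr_right fun h2 =>
    and_congr_right fun h3 => ?_
  have ol : ∀ (u : List ℕ) q, q < δ.length → (∀ x ∈ u, x < m) → ∀ x ∈ out δ l q u, x < m := by
    intro u
    induction u with
    | nil => simp [out]
    | cons a u ih =>
      intro q hq hu x hx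
      have ha := hu a (by simp)
      rcases List.mem_cons.1 hx with rfl | hx
      · have hq' : q < l.length := h2 ▸ hq
        obtain ⟨c, d⟩ := h3 _ (List.getElem_mem hq')
        rw [List.getD_eq_getElem _ _ hq', List.getD_eq_getElem _ _ (by rw [c]; exact ha)]
        exact d _ (List.getElem_mem _)
      · exact ih _ (h1.lt hq ha) (fun y hy => hu y (by simp [hy])) x hx
  have sn : ∀ (u : List ℕ) x, (∀ x ∈ u, x < m) → st δ l (u ++ [x]) = stp δ l (st δ l u) x := by
    intro u x hu
    simp only [st, stp, List.map_map]
    refine List.map_congr_left fun q hq => ?_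
    simp only [Function.comp, run_snoc, out_snoc, im_snoc h1 (ol u q (List.mem_range.1 hq) hu)]
  have re : ∀ T : List (ℕ × List ℕ) → Prop, (∃ v, Relation.ReflTransGen
      (fun u v => ∃ x < m, v = stp δ l u x)
      ((List.range δ.length).map fun q => (q, List.range δ.length)) v ∧ T v) ↔
      ∃ u, (∀ x ∈ u, x < m) ∧ T (st δ l u) := by
    intro T
    have e : ((List.range δ.length).map fun q => (q, List.range δ.length)) = st δ l [] := by
      simp [st, run, out, im_nil]
    rw [e]
    constructor
    · rintro ⟨v, a, b⟩
      suffices ∃ u, (∀ x ∈ u, x < m) ∧ v = st δ l u by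
        obtain ⟨u, c, rfl⟩ := this; exact ⟨u, c, b⟩
      clear b
      induction a with
      | refl => exact ⟨[], by simp, rfl⟩
      | tail _ h ih =>
        obtain ⟨u, a, rfl⟩ := ih
        obtain ⟨x, hx, rfl⟩ := h
        exact ⟨u ++ [x], by simpa [or_imp, forall_and, hx] using a, (sn u x a).symm⟩
    · rintro ⟨u, a, b⟩
      refine ⟨_, ?_, b⟩
      clear b
      induction u using List.reverseRecOn with
      | nil => exact .refl
      | append_singleton w x ih =>
        have hw : ∀ y ∈ w, y < m := fun y hy => a y (by simp [hy])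
        exact (ih hw).tail ⟨x, a x (by simp), sn w x hw⟩
  have o1 : ∀ u, one ((st δ l u).map Prod.fst) = true ↔
      ∀ p < δ.length, ∀ q < δ.length, run δ p u = run δ q u := fun u => by simp [one, st]
  have o2 : ∀ u, (∀ x ∈ u, x < m) → (one (im δ u) = true ↔
      ∀ p < δ.length, ∀ q < δ.length, run δ p u = run δ q u) := fun u hu => by
    simp only [one, List.all_eq_true, mem_im, beq_iff_eq]
    constructor
    · exact fun h p hp q hq => h _ ⟨h1.run_lt hp u hu, p, hp, rfl⟩ _ ⟨h1.run_lt hq u hu, q, hq, rfl⟩
    · rintro h _ ⟨-, p, hp, rfl⟩ _ ⟨-, q, hq, rfl⟩; exact h p hp q hq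
  rw [re (fun v => one (v.map Prod.fst) = true),
    re (fun v => one (v.map Prod.fst) = true ∧ ∃ z ∈ v, one z.2 = false)]
  simp only [o1, syn_iff h0]
  refine and_congr_right fun _ => ⟨fun h ⟨u, a, b, z, hz, c⟩ => ?_, fun h q hq u hu => ?_⟩
  · obtain ⟨q, hq, rfl⟩ := List.mem_map.1 hz
    have := h q (List.mem_range.1 hq) u ⟨a, b⟩
    simp [(o2 _ this.1).2 this.2] at c
  · refine ⟨ol u q hq hu.1, (o2 _ (ol u q hq hu.1)).1 ?_⟩
    by_contra e
    exact h ⟨u, hu.1, hu.2, _, List.mem_map_of_mem (List.mem_range.2 hq), by simpa using e⟩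

def aut (I : List Act × List (ℕ × ℕ)) (q x : ℕ) : ℕ :=
  bif x == I.1.length + 3 then 0 else bif x == I.1.length + 2 then q else bif q == 0 then 0
  else bif q == 1 then (bif x == 0 then 0 else 1) else bif q == 2 then (bif x == 0 then 3 else 0)
  else bif q == 3 then (bif decide (x ≤ 1) then 0 else 3) else vstep I 4 (size I) 1 q x

def lam (L q x : ℕ) : ℕ :=
  bif (q == 2 && x == 0) || (q == 3 && decide (1 ≤ x) && decide (x < L + 2)) then L + 2 else L + 3

def red (I : List Act × List (ℕ × ℕ)) : ℕ × List (List ℕ) × List (List ℕ) :=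
  (I.1.length + 4, tab (4 + size I * size I) (I.1.length + 4) (aut I),
    tab (4 + size I * size I) (I.1.length + 4) (lam I.1.length))

def aut' (I : List Act × List (ℕ × ℕ)) (q x : ℕ) : ℕ :=
  if q = 1 then (if x = 0 then 0 else 1) else vstep I 4 (size I) 1 q x

def out' (f l : ℕ → ℕ → ℕ) : ℕ → List ℕ → List ℕ
  | _, [] => []
  | q, a :: u => l q a :: out' f l (f q a) u

lemma red_iff (I : List Act × List (ℕ × ℕ)) : ¬ Plan I ↔ Reset (red I) := by
  have cl : ∀ q < 4 + size I * size I, ∀ x < I.1.length + 4, aut I q x < 4 + size I * size I := by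
    intro q hq x _
    simp only [aut, Bool.cond_eq_ite, beq_iff_eq]
    split_ifs <;> try omega
    have := vstep_mem I 4 1 x (q := q) (by omega) hq
    omega
  have ne : tab (4 + size I * size I) (I.1.length + 4) (aut I) ≠ [] := fun h => by
    have := congrArg List.length h
    simp at this
  have ot : ∀ (u : List ℕ) q, q < 4 + size I * size I → (∀ x ∈ u, x < I.1.length + 4) →
      out (tab (4 + size I * size I) (I.1.length + 4) (aut I))
        (tab (4 + size I * size I) (I.1.length + 4) (lam I.1.length)) q u =
      out' (aut I) (lam I.1.length) q u := by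
    intro u
    induction u with
    | nil => intros; rfl
    | cons a u ih =>
      intro q hq hu
      have ha := hu a (by simp)
      rw [out, out', tab_get hq ha, tab_get hq ha,
        ih _ (cl q hq a ha) fun y hy => hu y (by simp [hy])]
  have sy : ∀ u, Syn (I.1.length + 4) (tab (4 + size I * size I) (I.1.length + 4) (aut I)) u ↔
      (∀ x ∈ u, x < I.1.length + 4) ∧ ∀ p < 4 + size I * size I, u.foldl (aut I) p = 0 := by
    intro u
    rw [syn_iff ne, tab_length]
    refine and_congr_right fun hu => ?_
    have : u.foldl (aut I) 0 = 0 := List.foldl_fixed' (fun x => by simp [aut, Bool.cond_eq_ite]) u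
    constructor
    · intro h p hp
      have := h p hp 0 (by omega)
      rw [run_tab cl _ _ hp hu, run_tab cl _ _ (by omega) hu] at this
      omega
    · intro h p hp q hq
      rw [run_tab cl _ _ hp hu, run_tab cl _ _ hq hu, h p hp, h q hq]
  have z0 : ∀ u : List ℕ, u.foldl (aut I) 0 = 0 :=
    List.foldl_fixed' (fun x => by simp [aut, Bool.cond_eq_ite])
  have fa : ∀ (w : List ℕ) q, (∀ x ∈ w, x < I.1.length + 2) → (q = 0 ∨ q = 1 ∨ 4 ≤ q ∧
      q < 4 + size I * size I) → w.foldl (aut I) q = if q = 0 then 0 else
        w.foldl (fun q x => if q = 0 then 0 else aut' I q x) q := by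
    intro w
    induction w with
    | nil => intro q _ _; simp
    | cons x w ih =>
      intro q hw hq
      have hx := hw x (by simp)
      split_ifs with h0
      · rw [h0, z0]
      have e : aut I q x = aut' I q x := by
        simp only [aut, aut', Bool.cond_eq_ite, beq_iff_eq]
        split_ifs <;> omega
      rw [List.foldl_cons, List.foldl_cons, if_neg h0, e, ih _ (fun y hy => hw y (by simp [hy]))]
      · split_ifs with h
        · rw [h]; exact (List.foldl_fixed' (fun x => by simp) w).symm
        · rfl
      · unfold aut'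
        split_ifs <;> try omega
        exact vstep_mem I 4 1 x (by omega) (by omega)
  have hf : ∀ q x, 4 ≤ q → (fun q x => if q = 0 then 0 else aut' I q x) q x =
      vstep I 4 (size I) 1 q x := fun q x h => by
    simp [aut', show q ≠ 0 by omega, show q ≠ 1 by omega]
  have r0 : ∀ i < size I, ∀ a < size I, aut I (4 + i * size I + a) 0 = 4 + i * size I :=
    fun i _ a ha => by
      have := vstep_eq I 4 1 0 (i := i) (σ := fun _ => a) ha
      simp only [aut, Bool.cond_eq_ite, beq_iff_eq]
      rw [if_neg (by omega), if_neg (by omega), if_neg (by omega), if_neg (by omega),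
        if_neg (by omega), if_neg (by omega)]
      simpa using this
  have f3 : ∀ w : List ℕ, (∀ x ∈ w, 2 ≤ x ∧ x < I.1.length + 2) → w.foldl (aut I) 3 = 3 ∧
      ∀ x ∈ out' (aut I) (lam I.1.length) 3 (w ++ [1]), x = I.1.length + 2 := by
    intro w
    induction w with
    | nil => simp [out', lam]
    | cons x w ih =>
      intro hw
      have := hw x (by simp)
      have e : aut I 3 x = 3 := by
        simp only [aut, Bool.cond_eq_ite, beq_iff_eq, decide_eq_true_eq]
        split_ifs <;> omega
      have e' : lam I.1.length 3 x = I.1.length + 2 := by simp [lam, this.2, show 1 ≤ x by omega]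
      simpa [out', e, e'] using ih fun y hy => hw y (by simp [hy])
  have v1 : ∀ (w : List ℕ) i, i < size I → (∀ x ∈ w, 2 ≤ x ∧ x < I.1.length + 2) →
      (w ++ [1]).foldl (aut I) (4 + i * size I) = (fun q x => if q = 0 then 0 else aut' I q x)
        (w.foldl (fun q x => if q = 0 then 0 else aut' I q x) (4 + i * size I)) 1 := by
    intro w i hi hw
    rw [fa _ _ (by simpa [or_imp, forall_and] using fun x hx => (hw x hx).2)
      (Or.inr (Or.inr ⟨by omega, by nlinarith⟩)), if_neg (by omega)]
    simp
  simp only [Reset, red, ne, isTab_tab cl, tab_length, sy, ne_eq, not_false_iff, true_and]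
  constructor
  · intro h
    refine ⟨fun r hr => ?_, ⟨[I.1.length + 3], by simp, by simp [aut]⟩, fun q hq u hu => ?_⟩
    · simp only [tab, List.mem_map, List.mem_range] at hr
      obtain ⟨q, -, rfl⟩ := hr
      simp only [List.length_map, List.length_range, List.mem_map, true_and]
      rintro _ ⟨x, -, rfl⟩
      simp only [lam, Bool.cond_eq_ite]
      split_ifs <;> omega
    rw [ot u q hq hu.1]
    have lb : ∀ (u : List ℕ) q, ∀ x ∈ out' (aut I) (lam I.1.length) q u, x < I.1.length + 4 := by
      intro u
      induction u with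
      | nil => simp [out']
      | cons a u ih =>
        intro q x hx
        rcases List.mem_cons.1 hx with rfl | hx
        · simp only [lam, Bool.cond_eq_ite]; split_ifs <;> omega
        · exact ih _ x hx
    refine ⟨lb u q, ?_⟩
    by_cases hK : I.1.length + 3 ∈ out' (aut I) (lam I.1.length) q u
    · obtain ⟨a, b, e⟩ := List.append_of_mem hK
      intro p _
      rw [e, List.foldl_append, List.foldl_cons]
      simp [aut, z0]
    exfalso
    have tok : ∀ u : List ℕ, I.1.length + 3 ∉ out' (aut I) (lam I.1.length) 3 u → ∃ v,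
        (u = v ∨ u = v ++ [1]) ∧ ∀ x ∈ v, 2 ≤ x ∧ x < I.1.length + 2 := by
      intro u
      induction u with
      | nil => exact fun _ => ⟨[], Or.inl rfl, by simp⟩
      | cons a u ih =>
        intro h
        simp only [out', List.mem_cons, not_or] at h
        have ha : 1 ≤ a ∧ a < I.1.length + 2 := by
          by_contra e
          exact h.1 (by simp [lam, Bool.cond_eq_ite]; omega)
        by_cases h1 : a = 1
        · subst h1
          cases u with
          | nil => exact ⟨[], Or.inr rfl, by simp⟩
          | cons b u => exact absurd (by simp [out', aut, lam]) h.2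
        · have e : aut I 3 a = 3 := (f3 [a] (by simp; omega)).1
          rw [e] at h
          obtain ⟨v, c, d⟩ := ih h.2
          exact ⟨a :: v, by simpa using c, by simpa [ha.2, show 2 ≤ a by omega] using d⟩
    have y1 : ∀ u : List ℕ, (∀ x ∈ u, 1 ≤ x ∧ x < I.1.length + 2) → u.foldl (aut I) 1 = 1 := by
      intro u hu
      induction u with
      | nil => rfl
      | cons a u ih =>
        have := hu a (by simp)
        have e : aut I 1 a = 1 := by
          simp only [aut, Bool.cond_eq_ite, beq_iff_eq]
          split_ifs <;> omega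
        rw [List.foldl_cons, e]; exact ih fun y hy => hu y (by simp [hy])
    obtain _ | ⟨a, u⟩ := u
    · simpa using hu.2 1 (by omega)
    by_cases h3 : q = 3
    · subst h3
      obtain ⟨v, c, d⟩ := tok _ hK
      have := hu.2 1 (by omega)
      rw [y1] at this
      · omega
      · intro x hx
        rcases c with c | c <;> rw [c] at hx
        · have := d x hx; omega
        · rcases List.mem_append.1 hx with hx | hx
          · have := d x hx; omega
          · simp at hx; omega
    simp only [out', List.mem_cons, not_or] at hK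
    obtain ⟨rfl, rfl⟩ : q = 2 ∧ a = 0 := by
      by_contra e
      exact hK.1 (by simp [lam, Bool.cond_eq_ite, h3]; omega)
    have e : aut I 2 0 = 3 := by simp [aut]
    rw [e] at hK
    obtain ⟨v, c | c, d⟩ := tok _ hK.2
    · have := hu.2 2 (by omega)
      rw [List.foldl_cons, e, c, (f3 v d).1] at this
      omega
    · refine h (word_plan hf (y := 1) (fun x hx => by simp [aut']; omega) v d fun i hi => ?_)
      have := hu.2 (4 + i * size I + 0) (by nlinarith)
      rw [List.foldl_cons, r0 i hi 0 (size_pos I), c, v1 v i hi d] at this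
      exact fun e => absurd (this.symm.trans e) (by omega)
  · rintro ⟨-, -, h⟩ hp
    obtain ⟨w, a, b⟩ := plan_word hf hp
    have hw : ∀ x ∈ 0 :: (w ++ [1]), x < I.1.length + 4 := by
      simpa [or_imp, forall_and] using fun x hx => (a x hx).2.trans (by omega)
    have := (h 2 (by omega) (0 :: (w ++ [1])) ⟨hw, fun p hp => ?_⟩).2 1 (by omega)
    · rw [ot _ _ (by omega) hw] at this
      have c : ∀ x ∈ out' (aut I) (lam I.1.length) 2 (0 :: (w ++ [1])), x = I.1.length + 2 := by
        simpa [out', lam, aut] using (f3 w a).2
      generalize out' (aut I) (lam I.1.length) 2 (0 :: (w ++ [1])) = o at this c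
      induction o with
      | nil => simp at this
      | cons x o ih =>
        rw [c x (by simp), List.foldl_cons, 
          show aut I 1 (I.1.length + 2) = 1 by simp [aut, Bool.cond_eq_ite]] at this
        exact ih this fun y hy => c y (by simp [hy])
    · rw [List.foldl_cons]
      by_cases h4 : 4 ≤ p
      · have hn := size_pos I
        have := Nat.div_add_mod' (p - 4) (size I)
        have hi : (p - 4) / size I < size I := Nat.div_lt_of_lt_mul (by omega)
        have := r0 _ hi _ (Nat.mod_lt (p - 4) hn)
        rw [show 4 + (p - 4) / size I * size I + (p - 4) % size I = p by omega] at this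
        rw [this, v1 w _ hi a]; exact b _ hi
      · have : p = 0 ∨ p = 1 ∨ p = 2 ∨ p = 3 := by omega
        rcases this with rfl | rfl | rfl | rfl <;> simp [aut, z0, -List.foldl_append]
        simp [(f3 w a).1, aut]

theorem result : PSPACEComplete (Lang Reset) ∧ (InNP (Lang Reset) → ∀ L, InPSPACE L → InNP L) :=
  have h : HardPS Reset := by
    refine (hardPS_plan.not ?_).red (by unfold red tab aut lam; fun_prop) red_iff
    exact ps.not.red (r := red) (by unfold red tab aut lam; fun_prop) fun I => by
      rw [← red_iff, not_not]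
  ⟨⟨ps.inPSPACE, h.hard⟩, h.np_eq⟩

end Pool.Agent.Results.MP_5adc07_lc.PSPACE
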